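import Pool.Agent.MP_c69980_ag.H43.Spec5

/-!
The function `G` attached to a disc.
-/

set_option autoImplicit false

namespace Pool.Agent.MP_c69980_ag.H43

open MvPolynomial H60 Finset Filter Topology Metric

lemma gdisc_inv {n : ℕ} {K : Type} [Field K] [Algebra ℂ K] {z : Fin n → K} {y : Fin n → ℂ} {g : K}
    (hy : On z y) (h : Reg z y g) (h0 : vl z g y ≠ 0) :
    Reg z y g⁻¹ ∧ vl z g⁻¹ y = (vl z g y)⁻¹ := by
  obtain ⟨F, G, d, hF, hG, h1, rfl⟩ := h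
  rw [vl_eq hy hF hG h1] at h0 ⊢
  have h2 : eval y F ≠ 0 := fun e => h0 (by rw [e, zero_div])
  rw [inv_div, inv_div]
  exact ⟨⟨G, F, d, hG, hF, h2, rfl⟩, vl_eq hy hG hF h2⟩

/-- A root of a monic equation with continuous coefficients has no pole. -/
lemma gdisc_ord {f : ℂ → ℂ} {a : ℕ → ℂ → ℂ} {d : ℕ} {ζ : ℂ} (ha : ∀ i, ContinuousAt (a i) ζ)
    (h : ∀ᶠ s in 𝓝[≠] ζ, f s ^ d + ∑ i ∈ range d, a i s * f s ^ i = 0) :
    0 ≤ meromorphicOrderAt f ζ := by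
  refine not_lt.1 fun l => ?_
  have h1 := tendsto_norm_atTop_iff_cobounded.2 (tendsto_cobounded_of_meromorphicOrderAt_neg l)
  have h2 : ContinuousAt (fun s => (1 + ∑ i ∈ range d, ‖a i s‖) * 1) ζ :=
    (continuousAt_const.add (tendsto_finsetSum _ fun i _ => (ha i).norm)).mul continuousAt_const
  refine not_tendsto_atTop_of_tendsto_nhds (h2.mono_left (nhdsWithin_le_nhds (s := {ζ}ᶜ)))
    (tendsto_atTop_mono' _ ?_ h1)
  filter_upwards [h] with s hs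
  exact root_le (p := fun i => a i s) (c := fun i => ‖a i s‖) one_pos (fun _ => norm_nonneg _) hs
    fun i _ => by simp

lemma gdisc_one {f : ℂ → ℂ} {ζ : ℂ} (hf : AnalyticAt ℂ f ζ) (h0 : f ζ = 0) (h1 : deriv f ζ ≠ 0) :
    meromorphicOrderAt f ζ = 1 := by
  rw [hf.meromorphicOrderAt_eq, hf.analyticOrderAt_eq_one_of_zero_deriv_ne_zero h0 h1]
  rfl

lemma gdisc_alg {v q : ℂ} {d : ℕ} {P : ℕ → ℂ} (hq : q ≠ 0)
    (h : v ^ d + ∑ i ∈ range d, P i / q * v ^ i = 0) :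
    (q * v) ^ d + ∑ i ∈ range d, P i * q ^ (d - i - 1) * (q * v) ^ i = 0 := by
  rw [← mul_zero (q ^ d), ← h, mul_add, mul_sum, mul_pow]
  refine congrArg _ (sum_congr rfl fun i hi => ?_)
  obtain ⟨j, rfl⟩ := Nat.exists_eq_add_of_lt (mem_range.1 hi)
  rw [show i + j + 1 - i - 1 = j by omega]
  field_simp
  ring

section
variable {t a M n : ℕ} {w : Fin M → Option (Fin t)} {Θ : Pt t a → Fin M → ℂ} {K : Type} [Field K]
  [Algebra ℂ K] {U : Set (PS n)} {z : Fin n → K} {u : Fin M → K} {y : Fin n → ℂ} {q : Pt t a}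

lemma gdisc_ch (hz : GenPt U z) (hL : Lfe w Θ U z u) (hy : y ∈ Cone U) (hq : Lf z u Θ y q)
    {β : Cht M t} (hβ : Ch w β (Θ q)) (P : CP M t) :
    Reg z y (aeval (co β u) P) ∧ vl z (aeval (co β u) P) y = eval (co β (Θ q)) P := by
  obtain ⟨-, h⟩ := hL.val y hy q hq β hβ
  have := vl_aeval (Cone.on hz hy) (fun i => (h i).1) P
  rwa [funext fun i => (h i).2] at this

lemma gdisc_div (hz : GenPt U z) (hG : GA1 w Θ) (hL : Lfe w Θ U z u) (hy : y ∈ Cone U)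
    (hq : Lf z u Θ y q) {F G : PR M} {e : ℕ} (hF : F.IsHomogeneous e) (hG' : G.IsHomogeneous e)
    (h0 : eval (Θ q) G ≠ 0) : Reg z y (aeval u F / aeval u G) ∧
      vl z (aeval u F / aeval u G) y = eval (Θ q) F / eval (Θ q) G := by
  obtain ⟨β, hβ⟩ := exists_ch (hG.blk q)
  have n1 := pow_ne_zero e ((hL.val y hy q hq β hβ).1 none).2
  have n2 := pow_ne_zero e (hβ none).2
  have e1 : ∀ {F : PR M}, F.IsHomogeneous e →
      eval (co β (Θ q)) (dh F) = eval (Θ q) F / Θ q (β none) ^ e := fun h => eval_dh (y := Θ q) h β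
  have a1 := gdisc_ch hz hL hy hq hβ (dh F)
  have a2 := gdisc_ch hz hL hy hq hβ (dh G)
  have a3 := gdisc_inv (Cone.on hz hy) a2.1 (by rw [a2.2, e1 hG']; exact div_ne_zero h0 n2)
  have a4 := vl_mul (Cone.on hz hy) a1.1 a3.1
  rw [a3.2, a1.2, a2.2, e1 hF, e1 hG', eval_dh hF, eval_dh hG', ← div_eq_mul_inv, ← div_eq_mul_inv,
    div_div_div_cancel_right₀ n1, div_div_div_cancel_right₀ n2] at a4
  exact a4

lemma gdisc_pt (hz : GenPt U z) (hG : GA1 w Θ) (hL : Lfe w Θ U z u) (hy : y ∈ Cone U)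
    (hq : Lf z u Θ y q) {γ₀ : K} {b₀ : Fin M} (h1 : Reg z y γ₀) (h2 : Θ q b₀ ≠ 0) (c : Fin M) :
    Reg z y (γ₀ * (u c / u b₀)) ∧ vl z (γ₀ * (u c / u b₀)) y = vl z γ₀ y * (Θ q c / Θ q b₀) := by
  have a1 := gdisc_div hz hG hL hy hq (isHomogeneous_X ℂ c) (isHomogeneous_X ℂ b₀) (by simpa)
  simp only [aeval_X, eval_X] at a1
  have a2 := vl_mul (Cone.on hz hy) h1 a1.1
  rwa [a1.2] at a2

lemma gdisc_eq (hz : GenPt U z) (hG : GA1 w Θ) (hL : Lfe w Θ U z u) (hy : y ∈ Cone U)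
    (hq : Lf z u Θ y q) {m d e : ℕ} {E : Fin m → Derivation ℂ K K} {Γ : Fin M → K} {Q : PR M}
    {Pc : Fin M → ℕ → PR M} (ke : KE u E Γ d e Q Pc) (h0 : eval (Θ q) Q ≠ 0) {c : Fin M}
    (h1 : Reg z y (Γ c)) : (eval (Θ q) Q * vl z (Γ c) y) ^ d + ∑ i ∈ range d,
      eval (Θ q) (Pc c i) * eval (Θ q) Q ^ (d - i - 1) * (eval (Θ q) Q * vl z (Γ c) y) ^ i = 0 := by
  have a1 := fun i => gdisc_div hz hG hL hy hq (ke.hP c i) ke.hQ h0
  let A : rg (Cone.on hz hy) := ⟨Γ c, h1⟩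
  let B : ℕ → rg (Cone.on hz hy) := fun i => ⟨_, (a1 i).1⟩
  have a2 : A ^ d + ∑ i ∈ range d, B i * A ^ i = 0 := Subtype.ext (by
    simpa [A, B] using ke.eq c)
  have a3 := congrArg (chi (Cone.on hz hy)) a2
  rw [map_zero, map_add, map_sum, map_pow] at a3
  refine gdisc_alg h0 (Eq.trans (congrArg _ (sum_congr rfl fun i _ => ?_)) a3)
  rw [map_mul, map_pow, ← (a1 i).2]
  rfl

end

theorem sGdisc : SGdisc := by
  intro t a M n w Θ PP K _ _ U z u κ J γ E γ₀ b₀ Q₀ hG hM hL kl R x p hR hx hp hl h1 h2 h3 h4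
  have hz := hM.gen
  have m0 : (0 : ℂ) ∈ ball (0 : ℂ) R := mem_ball_self hR
  have hΘ : DifferentiableOn ℂ (fun s => Θ (p s)) (ball 0 R) := hG.hol.comp_differentiableOn hp
  have th : ∀ c, Hol R fun s => Θ (p s) c := differentiableOn_pi.1 hΘ
  have ev : ∀ F : PR M, Hol R fun s => eval (Θ (p s)) F := eval_diff hΘ
  have good : ∀ ζ ∈ ball (0 : ℂ) R, ∀ᶠ s in 𝓝[≠] ζ, s ∈ ball (0 : ℂ) R ∧ Reg z (x s) γ₀ ∧
      Θ (p s) b₀ ≠ 0 ∧ eval (Θ (p s)) κ.Q ≠ 0 := fun ζ hζ => by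
    filter_upwards [mem_nhdsWithin_of_mem_nhds (isOpen_ball.mem_nhds hζ), (hx.ev hz hζ h2).1,
      NZ.ev (th b₀) ⟨0, m0, h3⟩ hζ, NZ.ev (ev κ.Q) ⟨0, m0, h4⟩ hζ] with s a1 a2 a3 a4
    exact ⟨a1, a2.2, a3, a4⟩
  let G0 : ℂ → ℂ := fun s => eval (Θ (p s)) κ.Q * vl z γ₀ (x s) / Θ (p s) b₀
  have mer : ∀ ζ ∈ ball (0 : ℂ) R, MeromorphicAt G0 ζ := fun ζ hζ =>
    (((ev κ.Q).at hζ).meromorphicAt.mul (hx.ev hz hζ h2).2).div ((th b₀).at hζ).meromorphicAt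
  have e1 : ∀ c, ∀ ζ ∈ ball (0 : ℂ) R, ∀ᶠ s in 𝓝[≠] ζ,
      G0 s * Θ (p s) c = eval (Θ (p s)) κ.Q * vl z (γ₀ * (u c / u b₀)) (x s) := fun c ζ hζ =>
    (good ζ hζ).mono fun s hs => by
      rw [(gdisc_pt hz hG hL (hx.2 s hs.1) (hl s hs.1) hs.2.1 hs.2.2.1 c).2]
      simp only [G0]
      ring
  have e2 : ∀ c, ∀ ζ ∈ ball (0 : ℂ) R, ∀ᶠ s in 𝓝[≠] ζ, (G0 s * Θ (p s) c) ^ κ.d + ∑ i ∈ range κ.d,
      eval (Θ (p s)) (κ.Pc c i) * eval (Θ (p s)) κ.Q ^ (κ.d - i - 1) * (G0 s * Θ (p s) c) ^ i = 0 :=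
    fun c ζ hζ => ((good ζ hζ).and (e1 c ζ hζ)).mono fun s ⟨hs, e⟩ => by
      rw [e]
      exact gdisc_eq hz hG hL (hx.2 s hs.1) (hl s hs.1) kl.ke hs.2.2.2
        (gdisc_pt hz hG hL (hx.2 s hs.1) (hl s hs.1) hs.2.1 hs.2.2.1 c).1
  have e3 : ∀ c, ∀ ζ ∈ ball (0 : ℂ) R, Θ (p ζ) c ≠ 0 →
      meromorphicOrderAt (fun s => G0 s * Θ (p s) c) ζ = meromorphicOrderAt G0 ζ :=
    fun c ζ hζ hc => by
      rw [fun_meromorphicOrderAt_mul (mer ζ hζ) ((th c).at hζ).meromorphicAt,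
        ((th c).at hζ).meromorphicNFAt.meromorphicOrderAt_eq_zero_iff.2 hc, add_zero]
  have ca : ∀ c i, ∀ ζ ∈ ball (0 : ℂ) R, ContinuousAt
      (fun s => eval (Θ (p s)) (κ.Pc c i) * eval (Θ (p s)) κ.Q ^ (κ.d - i - 1)) ζ :=
    fun c i ζ hζ => ((ev _).at hζ).continuousAt.mul (((ev _).at hζ).continuousAt.pow _)
  obtain ⟨G, G1, G2⟩ := hol_ext (f := G0) (R := R) mer fun ζ hζ => by
    obtain ⟨c, -, hc⟩ := hG.blk (p ζ) none
    rw [← e3 c ζ hζ hc]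
    exact gdisc_ord (fun i => ca c i ζ hζ) (e2 c ζ hζ)
  refine ⟨G, ⟨G1, fun c ζ hζ => ?_, fun ζ hζ => ?_⟩, ?_⟩
  · have cG : ContinuousAt (fun s => G s * Θ (p s) c) ζ :=
      (G1.at hζ).continuousAt.mul ((th c).at hζ).continuousAt
    refine eq_of_ev (f := fun s => (G s * Θ (p s) c) ^ κ.d + ∑ i ∈ range κ.d,
      eval (Θ (p s)) (κ.Pc c i) * eval (Θ (p s)) κ.Q ^ (κ.d - i - 1) * (G s * Θ (p s) c) ^ i)
      (g := fun _ => 0) ((cG.pow _).add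
        (tendsto_finsetSum _ fun i _ => (ca c i ζ hζ).mul (cG.pow _))) continuousAt_const ?_
    filter_upwards [G2 ζ hζ, e2 c ζ hζ] with s a1 a2
    rw [a1]
    exact a2
  · by_cases hQ : eval (Θ (p ζ)) κ.Q = 0
    swap
    · left
      rw [((ev κ.Q).at hζ).meromorphicNFAt.meromorphicOrderAt_eq_zero_iff.2 hQ]
      exact (G1.at hζ).meromorphicOrderAt_nonneg
    refine or_iff_not_imp_right.2 fun hb => ?_
    simp only [hQ, true_and, not_forall, not_or, not_and] at hb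
    obtain ⟨β, hβ, f, hf, b1, b2⟩ := hb
    have v := hL.val _ (hx.2 ζ hζ) _ (hl ζ hζ) β hβ
    have r := gdisc_ch hz hL (hx.2 ζ hζ) (hl ζ hζ) hβ
    have e4 : eval (co β (Θ (p ζ))) (dh κ.Q) = eval (Θ (p ζ)) κ.Q / _ :=
      eval_dh (y := Θ (p ζ)) kl.ke.hQ β
    obtain ⟨c1, c2⟩ := (kl.kb β v.1).arc R x ζ hx hζ h1 (fun i => (v.2 i).1)
      (by rw [(r _).2, e4, hQ, zero_div]) f hf (by rwa [(r _).2])
    have e5 : (fun s => vl z (aeval (co β u) f.1) (x s)) =ᶠ[𝓝 ζ]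
        fun s => eval (co β (Θ (p s))) f.1 := by
      filter_upwards [isOpen_ball.mem_nhds hζ, eventually_all.2 fun o =>
        ((th (β o)).at hζ).continuousAt.eventually_ne (hβ o).2] with s a1 a2
      exact (gdisc_ch hz hL (hx.2 s a1) (hl s a1) (fun o => ⟨(hβ o).1, a2 o⟩) _).2
    have c3 := c2 (gdisc_one (hx.an hz hζ (r _).1) c1 (by
      rw [e5.deriv_eq]; exact b2 ((r _).2 ▸ c1))) (β none)
    rw [meromorphicOrderAt_congr (G2 ζ hζ), ← e3 _ ζ hζ (hβ none).2,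
      meromorphicOrderAt_congr (e1 _ ζ hζ), fun_meromorphicOrderAt_mul
        ((ev κ.Q).at hζ).meromorphicAt
        (hx.ev hz hζ (gdisc_pt hz hG hL (hx.2 0 m0) (hl 0 m0) h2 h3 _).1).2]
    exact le_add_of_nonneg_right c3
  · exact eq_of_ev (g := G0) (G1.at m0).continuousAt
      ((((ev κ.Q).at m0).continuousAt.mul (hx.an hz m0 h2).continuousAt).div
        ((th b₀).at m0).continuousAt h3) (G2 0 m0)

end Pool.Agent.MP_c69980_ag.H43
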